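import Pool.Agent.Helper20.FR.Spec

/-! FR part P11 -/

open Filter Topology Polynomial

namespace Pool.Agent.Helper8.FR
open Pool.Agent.Helper20.FR

universe u

section
variable {k : Type u} [Field k] {N E : Type} [Fintype N] [Fintype E]

lemma Lt_ne_zero (U : Matrix E N (LaurentSeries k)) (t : ℤ) {x : N → k[X]} (hx : x ≠ 0) :
    Lt U t x ≠ 0 := by
  obtain ⟨i, hi⟩ := Function.ne_iff.1 hx
  apply Function.ne_iff.2
  refine ⟨Sum.inl i, ?_⟩
  simp only [Lt, Sum.elim_inl, Pi.zero_apply]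
  rwa [Ne, iot_eq_zero]

lemma dg_le_vdeg {F : Type} [Finite F] {v : F → LaurentSeries k} (hv : v ≠ 0) {f : F}
    (hf : v f ≠ 0) : dg (v f) ≤ vdeg v := by
  have h := (VLe_iff hv).2 (le_refl (vdeg v : ℝ))
  have h2 := (DLe_iff hf).1 (h f)
  exact_mod_cast h2

lemma hgt_le_vdeg_Lt (U : Matrix E N (LaurentSeries k)) (t : ℤ) {x : N → k[X]} (hx : x ≠ 0) :
    (hgt x : ℤ) ≤ vdeg (Lt U t x) := by
  have hL := Lt_ne_zero U t hx
  obtain ⟨i, hi⟩ := Function.ne_iff.1 hx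
  have hne : (Finset.univ : Finset N).Nonempty := ⟨i, Finset.mem_univ i⟩
  obtain ⟨j, -, hj⟩ := Finset.exists_mem_eq_sup Finset.univ hne (fun i => (x i).natDegree)
  have hhg : hgt x = (x j).natDegree := hj
  by_cases hxj : x j = 0
  · -- the height is zero; use i
    rw [hxj] at hhg
    rw [hhg]
    have h1 : dg (iot (x i)) = ((x i).natDegree : ℤ) := dg_iot hi
    have h2 := dg_le_vdeg hL (f := Sum.inl i) (by
      simp only [Lt, Sum.elim_inl]; rwa [Ne, iot_eq_zero])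
    simp only [Lt, Sum.elim_inl] at h2
    change dg (iot (x i)) ≤ vdeg (Lt U t x) at h2
    simp only [natDegree_zero, Nat.cast_zero]
    omega
  · have h1 : dg (iot (x j)) = ((x j).natDegree : ℤ) := dg_iot hxj
    have h2 := dg_le_vdeg hL (f := Sum.inl j) (by
      simp only [Lt, Sum.elim_inl]; rwa [Ne, iot_eq_zero])
    change dg (iot (x j)) ≤ vdeg (Lt U t x) at h2
    omega

lemma Uv_le_vdeg_Lt (U : Matrix E N (LaurentSeries k)) (t : ℤ) {x : N → k[X]} (hx : x ≠ 0)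
    (hU : Uv U x ≠ 0) : t + vdeg (Uv U x) ≤ vdeg (Lt U t x) := by
  have hL := Lt_ne_zero U t hx
  obtain ⟨e, he, he'⟩ := exists_dg_eq_vdeg hU
  have h2 := dg_le_vdeg hL (f := Sum.inr e) (by
    simp only [Lt, Sum.elim_inr]; exact mul_ne_zero (Tz_ne_zero t) he)
  change dg (Tz t * Uv U x e) ≤ vdeg (Lt U t x) at h2
  rw [dg_mul (Tz_ne_zero t) he, dg_Tz, he'] at h2
  exact h2

end

theorem lb_thm : S_LB.{u} := by
  intro k _ N E _ _ U w hw hU hfin w' hw'
  have hw'0 : 0 < w' := lt_of_le_of_lt hw hw'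
  set S : Set (N → k[X]) := {x | x ≠ 0 ∧ VLe (Uv U x) (-w' * hgt x)} with hS
  have hSf : S.Finite := hfin w' hw'
  -- a bound for the exceptional set
  obtain ⟨B, hB⟩ : ∃ B : ℤ, ∀ x ∈ S, -vdeg (Uv U x) ≤ B := by
    obtain ⟨B, hB⟩ := (hSf.image fun x => -vdeg (Uv U x)).bddAbove
    exact ⟨B, fun x hx => hB ⟨x, hx, rfl⟩⟩
  refine ⟨max 0 ⌈(B : ℝ) * (1 + w') / w'⌉, fun t ht x hx => ?_⟩
  have ht0 : (0 : ℤ) ≤ t := (le_max_left _ _).trans ht
  have ht0' : (0 : ℝ) ≤ t := by exact_mod_cast ht0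
  have ht1 : (B : ℝ) * (1 + w') / w' ≤ t :=
    (Int.le_ceil _).trans (by exact_mod_cast (le_max_right _ _).trans ht)
  have h1w : 0 < 1 + w' := by linarith
  have hUx := hU x hx
  have e1 : ((t : ℝ) + vdeg (Uv U x)) ≤ vdeg (Lt U t x) := by
    exact_mod_cast Uv_le_vdeg_Lt U t hx hUx
  by_cases hxS : x ∈ S
  · have h2 : -(vdeg (Uv U x) : ℝ) ≤ B := by exact_mod_cast hB x hxS
    rw [div_le_iff₀ hw'0] at ht1
    rw [div_le_iff₀ h1w]
    have h3 : (t : ℝ) - B ≤ vdeg (Lt U t x) := by linarith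
    have h4 : ((t : ℝ) - B) * (1 + w') ≤ vdeg (Lt U t x) * (1 + w') :=
      mul_le_mul_of_nonneg_right h3 h1w.le
    nlinarith
  · have h2 : ¬ VLe (Uv U x) (-w' * hgt x) := fun h => hxS ⟨hx, h⟩
    rw [VLe_iff hUx] at h2
    push Not at h2
    have h3 : (hgt x : ℝ) ≤ vdeg (Lt U t x) := by
      exact_mod_cast hgt_le_vdeg_Lt U t hx
    by_cases h4 : (t : ℝ) / (1 + w') ≤ hgt x
    · exact h4.trans h3
    · push Not at h4
      have h5 : (t : ℝ) / (1 + w') = t - w' * (t / (1 + w')) := by field_simp; ring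
      have h6 : w' * hgt x ≤ w' * (t / (1 + w')) := mul_le_mul_of_nonneg_left h4.le hw'0.le
      linarith

end Pool.Agent.Helper8.FR
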