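import Pool.Agent.Helper20.FR.Spec

/-! FR part P12 -/

open Filter Topology

namespace Pool.Agent.Helper8.FR
open Pool.Agent.Helper20.FR

theorem tn_thm : S_TN := by
  intro κ hκ I g w σ hw hσ hU hL
  have hκ' : (1 : ℝ) ≤ κ := by exact_mod_cast hκ
  have h1w : (0 : ℝ) < 1 + w := by linarith
  -- step 1
  have h1 : ∀ τ > 0, ∃ i ∈ I, κ * τ / (1 + w) ≤ (i : ℝ) * τ + g i := by
    intro τ hτ
    by_contra hcon
    push Not at hcon
    have hev : ∀ i ∈ I, ∀ᶠ w' in 𝓝[>] w, (i : ℝ) * τ + g i < κ * τ / (1 + w') := by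
      intro i hi
      have hc : Tendsto (fun w' : ℝ => (κ : ℝ) * τ / (1 + w')) (𝓝[>] w) (𝓝 (κ * τ / (1 + w))) := by
        apply Tendsto.mono_left _ nhdsWithin_le_nhds
        exact (continuousAt_const.div (by fun_prop) h1w.ne').tendsto
      exact hc.eventually (lt_mem_nhds (hcon i hi))
    have hall : ∀ᶠ w' in 𝓝[>] w, ∀ i ∈ I, (i : ℝ) * τ + g i < κ * τ / (1 + w') :=
      (Finset.eventually_all I).2 hev
    obtain ⟨w', h3, h4⟩ := (hall.and self_mem_nhdsWithin).exists
    obtain ⟨i, hi, h5⟩ := hL τ hτ w' h4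
    exact absurd (h3 i hi) (not_lt.2 h5)
  set t : ℝ := (1 + w) * σ with ht
  have ht0 : 0 < t := mul_pos h1w hσ
  have htk : κ * t / (1 + w) = κ * σ := by rw [ht]; field_simp
  obtain ⟨i, hi, h2⟩ := h1 t ht0
  rw [htk] at h2
  have hi' : (i : ℝ) * t + g i = κ * σ := le_antisymm (hU i hi) h2
  by_cases hex : ∃ j ∈ I, j ≠ i ∧ (j : ℝ) * t + g j = κ * σ
  · obtain ⟨j, hj, hji, hj'⟩ := hex
    have hne : ((j : ℚ) - i) ≠ 0 := by
      rw [sub_ne_zero]; exact_mod_cast hji
    have hneR : ((j : ℝ) - i) ≠ 0 := by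
      rw [sub_ne_zero]; exact_mod_cast hji
    have ht' : t = (((g i - g j) / ((j : ℚ) - i) : ℚ) : ℝ) := by
      push_cast
      rw [eq_div_iff hneR]
      linarith
    set T : ℚ := (g i - g j) / ((j : ℚ) - i) with hT
    have hσ' : σ = (((i : ℚ) * T + g i) / κ : ℚ) := by
      push_cast
      rw [eq_div_iff (by positivity), ← ht']
      linarith
    refine ⟨T / (((i : ℚ) * T + g i) / κ) - 1, ?_⟩
    have : w = t / σ - 1 := by
      rw [ht]; field_simp; ring
    rw [this]
    rw [Rat.cast_sub, Rat.cast_div, ← ht', ← hσ', Rat.cast_one]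
  · push Not at hex
    -- near `t` only `i` is possible
    have hev : ∀ j ∈ I, j ≠ i → ∀ᶠ τ in 𝓝 t, (j : ℝ) * τ + g j < κ * τ / (1 + w) := by
      intro j hj hji
      have hlt : (j : ℝ) * t + g j < κ * t / (1 + w) := by
        rw [htk]; exact lt_of_le_of_ne (hU j hj) (hex j hj hji)
      exact (Continuous.tendsto (by fun_prop : Continuous fun τ : ℝ => (j : ℝ) * τ + g j) t).eventually_lt
        (Continuous.tendsto (by fun_prop : Continuous fun τ : ℝ => (κ : ℝ) * τ / (1 + w)) t) hlt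
    have hall : ∀ᶠ τ in 𝓝 t, ∀ j ∈ I, j ≠ i → (j : ℝ) * τ + g j < κ * τ / (1 + w) := by
      rw [Finset.eventually_all]
      intro j hj
      by_cases hji : j = i
      · exact Eventually.of_forall fun τ h => absurd hji h
      · exact (hev j hj hji).mono fun τ h _ => h
    have hall2 : ∀ᶠ τ in 𝓝 t, κ * τ / (1 + w) ≤ (i : ℝ) * τ + g i := by
      filter_upwards [hall, lt_mem_nhds ht0] with τ h3 h4
      obtain ⟨j, hj, h5⟩ := h1 τ h4
      by_cases hji : j = i
      · rw [← hji]; exact h5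
      · exact absurd (h3 j hj hji) (not_lt.2 h5)
    obtain ⟨δ, hδ, hball⟩ := Metric.eventually_nhds_iff.1 hall2
    have e1 := hball (y := t + δ / 2) (by rw [Real.dist_eq, abs_of_pos] <;> linarith)
    have e2 := hball (y := t - δ / 2) (by
      rw [Real.dist_eq]; rw [show t - δ / 2 - t = -(δ / 2) by ring, abs_neg, abs_of_pos] <;> linarith)
    have e3 : κ * (t + δ / 2) / (1 + w) = κ * σ + κ / (1 + w) * (δ / 2) := by
      rw [← htk]; ring
    have e4 : κ * (t - δ / 2) / (1 + w) = κ * σ - κ / (1 + w) * (δ / 2) := by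
      rw [← htk]; ring
    rw [e3] at e1
    rw [e4] at e2
    have e5 : (κ : ℝ) / (1 + w) * (δ / 2) = i * (δ / 2) := by
      apply le_antisymm <;> linarith
    have e6 : (κ : ℝ) / (1 + w) = i := mul_right_cancel₀ (by positivity) e5
    have hi0 : (i : ℝ) ≠ 0 := by
      rw [← e6]; positivity
    refine ⟨κ / i - 1, ?_⟩
    push_cast
    rw [div_eq_iff h1w.ne'] at e6
    rw [e6]
    field_simp
    ring

end Pool.Agent.Helper8.FR
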