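import Pool.Agent.Helper20.FR.Spec

/-! FR part P9 -/

open Filter Topology Polynomial

namespace Pool.Agent.Helper8.FR
open Pool.Agent.Helper20.FR

universe u

section
variable {k : Type u} [Field k] {N : Type} [Fintype N]

lemma finite_hgt_le [Finite k] (H : ℕ) : {x : N → k[X] | hgt x ≤ H}.Finite := by
  refine Set.Finite.of_injOn (f := fun (x : N → k[X]) (i : N) (j : Fin (H + 1)) => (x i).coeff j)
    (t := Set.univ) (fun _ _ => Set.mem_univ _) ?_ (Set.toFinite _)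
  intro x hx y hy hxy
  funext i
  ext m
  have hxi : (x i).natDegree ≤ H :=
    (Finset.le_sup (f := fun i => (x i).natDegree) (Finset.mem_univ i)).trans hx
  have hyi : (y i).natDegree ≤ H :=
    (Finset.le_sup (f := fun i => (y i).natDegree) (Finset.mem_univ i)).trans hy
  by_cases hm : m < H + 1
  · exact congrFun (congrFun hxy i) ⟨m, hm⟩
  · rw [coeff_eq_zero_of_natDegree_lt (by omega), coeff_eq_zero_of_natDegree_lt (by omega)]

lemma VLe_hgt (x : N → k[X]) : VLe (fun i => iot (x i)) (hgt x) := by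
  intro i
  apply (DLe_iot (x i)).mono
  exact_mod_cast Finset.le_sup (f := fun i => (x i).natDegree) (Finset.mem_univ i)

end

theorem cs_thm : S_CS.{u} := by
  intro k _ _ N E _ _ U r hr w hinf
  have hr' : (2 : ℝ) ≤ r := by exact_mod_cast hr
  have hr0 : (0 : ℝ) < r := by linarith
  have hex : ∀ l : ℕ, ∃ x : N → k[X], x ≠ 0 ∧ r ^ l ≤ hgt x ∧
      VLe (Uv U x) (-(w - 1 / ((l : ℝ) + 1)) * hgt x) := by
    intro l
    have h1 := hinf (w - 1 / ((l : ℝ) + 1)) (by
      have : (0 : ℝ) < 1 / ((l : ℝ) + 1) := by positivity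
      linarith)
    obtain ⟨x, ⟨hx, hx'⟩, hx2⟩ := (h1.sdiff (finite_hgt_le (r ^ l))).nonempty
    refine ⟨x, hx, ?_, hx'⟩
    have : ¬ hgt x ≤ r ^ l := hx2
    omega
  choose x hx0 hxr hxU using hex
  set J : ℕ → ℕ := fun l => Nat.log r (hgt (x l)) with hJ
  set s : ℕ → ℝ := fun l => (hgt (x l) : ℝ) / (r : ℝ) ^ J l with hs
  have hpos : ∀ l, 0 < hgt (x l) := fun l => lt_of_lt_of_le (by positivity) (hxr l)
  have hs1 : ∀ l, s l ∈ Set.Icc (1 : ℝ) r := by
    intro l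
    have h1 : r ^ J l ≤ hgt (x l) := Nat.pow_log_le_self r (hpos l).ne'
    have h2 : hgt (x l) < r ^ (J l + 1) := Nat.lt_pow_succ_log_self (by omega) _
    have h1' : (r : ℝ) ^ J l ≤ hgt (x l) := by exact_mod_cast h1
    have h2' : (hgt (x l) : ℝ) < (r : ℝ) ^ (J l + 1) := by exact_mod_cast h2
    have h3 : (0 : ℝ) < (r : ℝ) ^ J l := by positivity
    constructor
    · rw [hs]; simp only; rw [le_div_iff₀ h3]; linarith
    · rw [hs]; simp only; rw [div_le_iff₀ h3]; rw [pow_succ] at h2'; linarith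
  have hsmul : ∀ l, (hgt (x l) : ℝ) = s l * (r : ℝ) ^ J l := by
    intro l
    rw [hs]; simp only; rw [div_mul_cancel₀]; positivity
  obtain ⟨σ, hσ, φ, hφ, hlim⟩ := isCompact_Icc.tendsto_subseq hs1
  refine ⟨σ, by linarith [hσ.1], fun ε hε => ?_⟩
  rw [frequently_atTop]
  intro a
  have hφt : Tendsto φ atTop atTop := hφ.tendsto_atTop
  have hinvt : Tendsto (fun l : ℕ => 1 / ((φ l : ℝ) + 1)) atTop (𝓝 0) :=
    (tendsto_one_div_add_atTop_nhds_zero_nat (𝕜 := ℝ)).comp hφt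
  have hev1 : ∀ᶠ l in atTop, s (φ l) < σ + ε := hlim.eventually (gt_mem_nhds (by linarith))
  have hlim2 : Tendsto (fun l => (w - 1 / ((φ l : ℝ) + 1)) * s (φ l)) atTop (𝓝 ((w - 0) * σ)) :=
    (tendsto_const_nhds.sub hinvt).mul hlim
  have hev2 : ∀ᶠ l in atTop, w * σ - ε < (w - 1 / ((φ l : ℝ) + 1)) * s (φ l) :=
    hlim2.eventually (lt_mem_nhds (by rw [sub_zero]; linarith))
  obtain ⟨l, ⟨h1, h2⟩, h3⟩ := ((hev1.and hev2).and (hφt.eventually_ge_atTop a)).exists
  refine ⟨J (φ l), ?_, x (φ l), hx0 _, ?_, ?_⟩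
  · have : φ l ≤ Nat.log r (hgt (x (φ l))) := Nat.le_log_of_pow_le (by omega) (hxr _)
    exact h3.trans this
  · apply (VLe_hgt (x (φ l))).mono
    rw [hsmul]
    exact mul_le_mul_of_nonneg_right h1.le (by positivity)
  · apply (hxU (φ l)).mono
    rw [hsmul]
    have h4 : (w * σ - ε) * (r : ℝ) ^ J (φ l) ≤
        ((w - 1 / ((φ l : ℝ) + 1)) * s (φ l)) * (r : ℝ) ^ J (φ l) :=
      mul_le_mul_of_nonneg_right h2.le (by positivity)
    nlinarith

end Pool.Agent.Helper8.FR
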