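import Pool.Agent.Helper20.FR.Spec

/-! FR part P10 -/

open Filter Topology Polynomial

namespace Pool.Agent.Helper8.FR
open Pool.Agent.Helper20.FR

universe u

section
variable {k : Type u} [Field k] {N E : Type}

lemma mnr_mul {S : Type u} [CommRing S] {ι : Type} {κ : ℕ} (M : Matrix ι (Fin κ) S)
    (Q : Matrix (Fin κ) (Fin κ) S) (f : Fin κ → ι) : mnr (M * Q) f = mnr M f * Q.det := by
  have h : (Matrix.of fun a b => (M * Q) (f a) b : Matrix (Fin κ) (Fin κ) S) =
      (Matrix.of fun a b => M (f a) b) * Q := by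
    ext a b
    simp [Matrix.mul_apply]
  rw [mnr, h, Matrix.det_mul]
  rfl

lemma mnr_smul {S : Type u} [CommRing S] {ι : Type} {κ : ℕ} (c : S) (M : Matrix ι (Fin κ) S)
    (f : Fin κ → ι) : mnr (c • M) f = c ^ κ * mnr M f := by
  have h : (Matrix.of fun a b => (c • M) (f a) b : Matrix (Fin κ) (Fin κ) S) =
      c • (Matrix.of fun a b => M (f a) b) := by
    ext a b
    simp
  rw [mnr, h, Matrix.det_smul, Fintype.card_fin]
  rfl

lemma big_mul [Fintype N] (U : Matrix E N (LaurentSeries k)) {κ : ℕ}
    (X : Matrix N (Fin κ) k[X]) (Q : Matrix (Fin κ) (Fin κ) k[X]) :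
    big U (X * Q) = big U X * Q.map iot := by
  refine Matrix.ext fun a b => ?_
  rcases a with i | e
  · simp [big, Matrix.mul_apply, map_sum]
  · simp only [big, Uv, Matrix.of_apply, Sum.elim_inr, Matrix.mulVec, dotProduct,
      Matrix.mul_apply, map_sum, map_mul, Matrix.map_apply, Finset.mul_sum, Finset.sum_mul]
    rw [Finset.sum_comm]
    refine Finset.sum_congr rfl fun _ _ => Finset.sum_congr rfl fun _ _ => ?_
    ring

lemma big_smul [Fintype N] (U : Matrix E N (LaurentSeries k)) {κ : ℕ}
    (a : k[X]) (X : Matrix N (Fin κ) k[X]) : big U (a • X) = iot a • big U X := by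
  refine Matrix.ext fun e b => ?_
  rcases e with i | e
  · simp [big]
  · simp only [big, Uv, Matrix.of_apply, Sum.elim_inr, Matrix.mulVec, dotProduct,
      Matrix.smul_apply, smul_eq_mul, map_mul, Finset.mul_sum]
    refine Finset.sum_congr rfl fun _ _ => ?_
    ring

lemma dvd_of_prim {F : Type} [Fintype F] {q : F → k[X]} (hq : Prim q) {b D : k[X]}
    (h : ∀ f, b ∣ D * q f) : b ∣ D := by
  have htop : Ideal.span (Set.range q) = ⊤ := by
    obtain ⟨d, hd⟩ := (IsPrincipalIdealRing.principal (Ideal.span (Set.range q))).principal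
    have hdu : IsUnit d := by
      apply hq
      intro f
      have : q f ∈ Ideal.span (Set.range q) := Ideal.subset_span ⟨f, rfl⟩
      rw [hd] at this
      exact Ideal.mem_span_singleton.1 this
    rw [hd]
    exact Ideal.span_singleton_eq_top.2 hdu
  have h1 : (1 : k[X]) ∈ Ideal.span (Set.range q) := by rw [htop]; trivial
  obtain ⟨r, hr⟩ := (Ideal.mem_span_range_iff_exists_fun).1 h1
  have : D = ∑ f, r f * (D * q f) := by
    calc D = D * ∑ f, r f * q f := by rw [hr, mul_one]
      _ = _ := by
        rw [Finset.mul_sum]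
        refine Finset.sum_congr rfl fun i _ => ?_
        ring
  rw [this]
  exact Finset.dvd_sum fun f _ => (h f).mul_left _

end

theorem ub_thm : S_UB.{u} := by
  intro k _ N E _ _ _ _ U κ Y Z c a q Q hc hq hmn ha hQ hZ α β hα hβ f
  -- divisibility
  have h1 : ∀ g : Fin κ → N, a ^ κ * mnr Z g = c * Q.det * q g := by
    intro g
    rw [← mnr_smul, hZ, mnr_mul, hmn]
    ring
  have h2 : a ^ κ ∣ c * Q.det := dvd_of_prim hq fun g => ⟨mnr Z g, (h1 g).symm⟩
  obtain ⟨m, hm⟩ := h2
  have hak : a ^ κ ≠ 0 := pow_ne_zero _ ha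
  have hm0 : m ≠ 0 := by
    rintro rfl
    rw [mul_zero] at hm
    exact mul_ne_zero hc hQ hm
  have h3 : iot a ^ κ * mnr (big U Z) f = mnr (big U Y) f * iot Q.det := by
    rw [← mnr_smul, ← big_smul, hZ, big_mul, mnr_mul]
    congr 1
    exact (RingHom.map_det iot Q).symm
  have h4 : iot c * mnr (big U Z) f = iot m * mnr (big U Y) f := by
    have hia : iot a ^ κ ≠ 0 := pow_ne_zero _ (by rwa [Ne, iot_eq_zero])
    apply mul_left_cancel₀ hia
    have h5 : iot c * iot Q.det = iot a ^ κ * iot m := by
      rw [← map_mul, hm, map_mul, map_pow]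
    calc iot a ^ κ * (iot c * mnr (big U Z) f) = iot c * (iot a ^ κ * mnr (big U Z) f) := by ring
      _ = iot c * iot Q.det * mnr (big U Y) f := by rw [h3]; ring
      _ = _ := by rw [h5]; ring
  -- the bound for Z
  have h6 : DLe (mnr (big U Z) f) (((κ : ℝ) - typ f) * α + (typ f : ℝ) * β) := by
    have h7 := DLe_det (M := (Matrix.of fun a b => big U Z (f a) b :
      Matrix (Fin κ) (Fin κ) (LaurentSeries k)))
      (c := fun a => if (f a).isRight then β else α) (by
        intro a b
        simp only [Matrix.of_apply, big]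
        rcases hfa : f a with i | e
        · simpa using hα b i
        · simpa using hβ b e)
    have h8 : (∑ a, if (f a).isRight then β else α) =
        ((κ : ℝ) - typ f) * α + (typ f : ℝ) * β := by
      rw [Finset.sum_ite, Finset.sum_const, Finset.sum_const]
      have h9 := Finset.card_filter_add_card_filter_not (s := (Finset.univ : Finset (Fin κ)))
        (fun a => (f a).isRight = true)
      rw [Finset.card_univ, Fintype.card_fin] at h9
      have h10 : ((Finset.univ.filter fun a => (f a).isRight = true).card : ℝ) +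
        ((Finset.univ.filter fun a => ¬ (f a).isRight = true).card : ℝ) = κ := by
        exact_mod_cast h9
      simp only [nsmul_eq_mul, typ]
      rw [← h10]
      ring
    rw [h8] at h7
    exact h7
  by_cases hz : mnr (big U Y) f = 0
  · rw [hz]; exact DLe_zero _
  · have hm' : iot m ≠ 0 := by rwa [Ne, iot_eq_zero]
    have hc' : iot c ≠ 0 := by rwa [Ne, iot_eq_zero]
    have hZ0 : mnr (big U Z) f ≠ 0 := by
      intro h
      rw [h, mul_zero] at h4
      exact mul_ne_zero hm' hz h4.symm
    have h11 : dg (iot c) + dg (mnr (big U Z) f) = dg (iot m) + dg (mnr (big U Y) f) := by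
      rw [← dg_mul hc' hZ0, h4, dg_mul hm' hz]
    rw [dg_iot hc, dg_iot hm0] at h11
    have h12 := (DLe_iff hZ0).1 h6
    rw [DLe_iff hz]
    have h13 : ((c.natDegree : ℤ) : ℝ) + dg (mnr (big U Z) f) =
      ((m.natDegree : ℤ) : ℝ) + dg (mnr (big U Y) f) := by exact_mod_cast h11
    push_cast at h13
    have h14 : (0 : ℝ) ≤ m.natDegree := by positivity
    linarith

end Pool.Agent.Helper8.FR
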